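import Mathlib

/-!
# Sums of periodic functions over residue classes
-/

namespace Pool.Agent.W_MP_52e7c8_nt

open Finset

theorem sum_range_shift_one (M : ℕ) (f : ℤ → ℝ) (hf : ∀ n, f (n + M) = f n) :
    ∑ r ∈ range M, f ((r : ℤ) + 1) = ∑ r ∈ range M, f r := by
  have h1 := Finset.sum_range_succ (fun r : ℕ => f (r : ℤ)) M
  have h2 := Finset.sum_range_succ' (fun r : ℕ => f (r : ℤ)) M
  have h3 : f (M : ℤ) = f 0 := by simpa using hf 0
  simp only [Nat.cast_add, Nat.cast_one, Nat.cast_zero] at h2
  linarith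

theorem sum_range_shift (M : ℕ) (f : ℤ → ℝ) (hf : ∀ n, f (n + M) = f n) (t : ℤ) :
    ∑ r ∈ range M, f ((r : ℤ) + t) = ∑ r ∈ range M, f r := by
  induction t using Int.induction_on with
  | zero => simp
  | succ i ih =>
    rw [← ih]
    have := sum_range_shift_one M (fun n => f (n + i)) (fun n => by
      have e : n + (M : ℤ) + i = (n + i) + M := by ring
      simp only [e, hf])
    rw [← this]
    exact Finset.sum_congr rfl fun r _ => by congr 1; ring
  | pred i ih =>
    rw [← ih]
    have := sum_range_shift_one M (fun n => f (n + (-i - 1))) (fun n => by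
      have e : n + (M : ℤ) + (-i - 1) = (n + (-i - 1)) + M := by ring
      simp only [e, hf])
    rw [← this]
    exact Finset.sum_congr rfl fun r _ => by congr 1; ring

/-- Decomposition into blocks of length `k`: only multiples of `k` contribute. -/
theorem sum_range_dvd (k q : ℕ) (hk : 0 < k) (f : ℤ → ℝ) :
    ∑ r ∈ range (k * q), (if (k : ℤ) ∣ (r : ℤ) then f r else 0) =
      ∑ s ∈ range q, f ((k : ℤ) * s) := by
  induction q with
  | zero => simp
  | succ q ih =>
    rw [mul_add, mul_one, Finset.sum_range_add, ih, Finset.sum_range_succ]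
    congr 1
    rw [Finset.sum_eq_single_of_mem 0 (Finset.mem_range.2 hk)]
    · simp
    · intro b hb hb0
      have hb' := Finset.mem_range.1 hb
      rw [if_neg]
      intro hdvd
      have h1 : (k : ℤ) ∣ (b : ℤ) := by
        have : ((k * q + b : ℕ) : ℤ) = (k : ℤ) * q + b := by push_cast; ring
        rw [this] at hdvd
        exact (dvd_add_right (dvd_mul_right _ _)).1 hdvd
      have h2 : k ∣ b := by exact_mod_cast h1
      have h3 := Nat.le_of_dvd (Nat.pos_of_ne_zero hb0) h2
      omega

/-- Sum over one residue class. -/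
theorem sum_class (k q : ℕ) (hk : 0 < k) (h : ℤ) (f : ℤ → ℝ)
    (hf : ∀ n, f (n + (k * q : ℕ)) = f n) :
    ∑ r ∈ range (k * q), (if (k : ℤ) ∣ (r : ℤ) - h then f r else 0) =
      ∑ s ∈ range q, f ((k : ℤ) * s + h) := by
  rw [← sum_range_dvd k q hk (fun n => f (n + h))]
  rw [← sum_range_shift (k * q) (fun n => if (k : ℤ) ∣ n - h then f n else 0) (fun n => by
    have e : n + ((k * q : ℕ) : ℤ) - h = (n - h) + (k : ℤ) * q := by push_cast; ring
    simp only [e, hf]
    have : (k : ℤ) ∣ (n - h) + (k : ℤ) * q ↔ (k : ℤ) ∣ (n - h) :=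
      (dvd_add_left (dvd_mul_right _ _))
    simp only [this]) h]
  exact Finset.sum_congr rfl fun r _ => by
    simp only [add_sub_cancel_right]

theorem count_class (k M : ℕ) (hk : 0 < k) (hkM : k ∣ M) (h : ℤ) :
    ∑ r ∈ range M, (if (k : ℤ) ∣ (r : ℤ) - h then (1 : ℝ) else 0) = M / k := by
  obtain ⟨q, rfl⟩ := hkM
  rw [sum_class k q hk h (fun _ => 1) (fun _ => rfl)]
  have : (k : ℝ) ≠ 0 := by positivity
  simp only [sum_const, card_range, nsmul_eq_mul, mul_one, Nat.cast_mul]
  field_simp

end Pool.Agent.W_MP_52e7c8_nt
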