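import Pool.Agent.W_MP_52e7c8_nt.Generic
import Pool.Agent.W_MP_52e7c8_nt.Count

/-!
# Formal combinations of arithmetic progressions and signed progressions
-/

namespace Pool.Agent.W_MP_52e7c8_nt

open Finset

/-- Index set: a pair `(k, h)` stands for the affine map `n ↦ k n + h`. -/
abbrev Ix := ℕ+ × ℤ

/-- `j = (k,h)` hits `n` if `n ≡ h mod k`. -/
def Hit (j : Ix) (n : ℤ) : Prop := ((j.1 : ℕ) : ℤ) ∣ n - j.2

noncomputable instance (j : Ix) (n : ℤ) : Decidable (Hit j n) := Classical.dec _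

/-- position -/
def pos (j : Ix) (n : ℤ) : ℤ := (n - j.2) / ((j.1 : ℕ) : ℤ)

theorem hit_iff_of_dvd {j : Ix} {M : ℕ} (hM : (j.1 : ℕ) ∣ M) {n r : ℤ} (h : (M : ℤ) ∣ n - r) :
    Hit j n ↔ Hit j r := by
  have h1 : ((j.1 : ℕ) : ℤ) ∣ n - r := (Int.natCast_dvd_natCast.2 hM).trans h
  unfold Hit
  have e : n - j.2 = (n - r) + (r - j.2) := by ring
  rw [e]
  exact dvd_add_right h1

/-- value of the progression part -/
noncomputable def av (a : Ix →₀ ℝ) (n : ℤ) : ℝ := a.sum fun j c => if Hit j n then c else 0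

/-- value of the signed part -/
noncomputable def tv (s : ℤ → ℝ) (b : Ix →₀ ℝ) (n : ℤ) : ℝ :=
  b.sum fun j c => if Hit j n then c * s (pos j n) else 0

/-- bound of the signed part -/
noncomputable def bv (b : Ix →₀ ℝ) (n : ℤ) : ℝ := b.sum fun j c => if Hit j n then |c| else 0

/-- mean value -/
noncomputable def lam (a : Ix →₀ ℝ) : ℝ := a.sum fun j c => c / ((j.1 : ℕ) : ℝ)

theorem av_add (a a' : Ix →₀ ℝ) (n : ℤ) : av (a + a') n = av a n + av a' n := by
  unfold av
  refine Finsupp.sum_add_index' (fun j => by simp) (fun j c c' => ?_)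
  split_ifs <;> simp

theorem tv_add (s : ℤ → ℝ) (a a' : Ix →₀ ℝ) (n : ℤ) : tv s (a + a') n = tv s a n + tv s a' n := by
  unfold tv
  refine Finsupp.sum_add_index' (fun j => by simp) (fun j c c' => ?_)
  split_ifs <;> ring

theorem lam_add (a a' : Ix →₀ ℝ) : lam (a + a') = lam a + lam a' := by
  unfold lam
  exact Finsupp.sum_add_index' (fun j => by simp) (fun j c c' => by ring)

theorem av_single (j : Ix) (c : ℝ) (n : ℤ) :
    av (Finsupp.single j c) n = if Hit j n then c else 0 := by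
  unfold av
  rw [Finsupp.sum_single_index]
  simp

theorem tv_single (s : ℤ → ℝ) (j : Ix) (c : ℝ) (n : ℤ) :
    tv s (Finsupp.single j c) n = if Hit j n then c * s (pos j n) else 0 := by
  unfold tv
  rw [Finsupp.sum_single_index]
  simp

theorem lam_single (j : Ix) (c : ℝ) : lam (Finsupp.single j c) = c / ((j.1 : ℕ) : ℝ) := by
  unfold lam
  rw [Finsupp.sum_single_index]
  simp

theorem av_zero (n : ℤ) : av 0 n = 0 := by simp [av]
theorem tv_zero (s : ℤ → ℝ) (n : ℤ) : tv s 0 n = 0 := by simp [tv]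
theorem lam_zero : lam 0 = 0 := by simp [lam]

theorem av_sum {ι : Type} (t : Finset ι) (f : ι → (Ix →₀ ℝ)) (n : ℤ) :
    av (∑ i ∈ t, f i) n = ∑ i ∈ t, av (f i) n := by
  classical
  induction t using Finset.induction_on with
  | empty => simp [av_zero]
  | insert i t hi ih => rw [Finset.sum_insert hi, Finset.sum_insert hi, av_add, ih]

theorem lam_sum {ι : Type} (t : Finset ι) (f : ι → (Ix →₀ ℝ)) :
    lam (∑ i ∈ t, f i) = ∑ i ∈ t, lam (f i) := by
  classical
  induction t using Finset.induction_on with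
  | empty => simp [lam_zero]
  | insert i t hi ih => rw [Finset.sum_insert hi, Finset.sum_insert hi, lam_add, ih]

theorem bv_nonneg (b : Ix →₀ ℝ) (n : ℤ) : 0 ≤ bv b n := by
  unfold bv Finsupp.sum
  refine Finset.sum_nonneg fun j _ => ?_
  simp only
  split_ifs
  · exact abs_nonneg _
  · exact le_rfl

theorem abs_tv_le {s : ℤ → ℝ} (hs : ∀ n, s n = 1 ∨ s n = -1) (b : Ix →₀ ℝ) (n : ℤ) :
    |tv s b n| ≤ bv b n := by
  unfold tv bv Finsupp.sum
  refine (Finset.abs_sum_le_sum_abs _ _).trans (Finset.sum_le_sum fun j _ => ?_)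
  simp only
  split_ifs
  · rw [abs_mul]
    rcases hs (pos j n) with h | h <;> simp [h]
  · simp

/-- `M` is a common multiple of all moduli in the support. -/
def Period (M : ℕ) (a : Ix →₀ ℝ) : Prop := ∀ j ∈ a.support, (j.1 : ℕ) ∣ M

theorem av_congr {M : ℕ} {a : Ix →₀ ℝ} (hM : Period M a) {n r : ℤ} (h : (M : ℤ) ∣ n - r) :
    av a n = av a r := by
  unfold av Finsupp.sum
  refine Finset.sum_congr rfl fun j hj => ?_
  simp only [hit_iff_of_dvd (hM j hj) h]

theorem bv_congr {M : ℕ} {a : Ix →₀ ℝ} (hM : Period M a) {n r : ℤ} (h : (M : ℤ) ∣ n - r) :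
    bv a n = bv a r := by
  unfold bv Finsupp.sum
  refine Finset.sum_congr rfl fun j hj => ?_
  simp only [hit_iff_of_dvd (hM j hj) h]

theorem Period.add {M : ℕ} {a a' : Ix →₀ ℝ} (h : Period M a) (h' : Period M a') :
    Period M (a + a') := by
  classical
  intro j hj
  have := Finsupp.support_add hj
  rcases Finset.mem_union.1 this with h1 | h1
  · exact h j h1
  · exact h' j h1

theorem Period.mul {M : ℕ} {a : Ix →₀ ℝ} (h : Period M a) (k : ℕ) : Period (k * M) a :=
  fun j hj => (h j hj).trans (dvd_mul_left _ _)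

theorem exists_period (a b : Ix →₀ ℝ) : ∃ M : ℕ, 0 < M ∧ Period M a ∧ Period M b := by
  refine ⟨(∏ j ∈ a.support, (j.1 : ℕ)) * ∏ j ∈ b.support, (j.1 : ℕ), ?_, ?_, ?_⟩
  · exact Nat.mul_pos (Finset.prod_pos fun j _ => j.1.pos) (Finset.prod_pos fun j _ => j.1.pos)
  · exact fun j hj => (Finset.dvd_prod_of_mem (fun j : Ix => (j.1 : ℕ)) hj).trans (dvd_mul_right _ _)
  · exact fun j hj => (Finset.dvd_prod_of_mem (fun j : Ix => (j.1 : ℕ)) hj).trans (dvd_mul_left _ _)

theorem exists_period4 (a b a' b' : Ix →₀ ℝ) :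
    ∃ M : ℕ, 0 < M ∧ Period M a ∧ Period M b ∧ Period M a' ∧ Period M b' := by
  obtain ⟨M, hM, h1, h2⟩ := exists_period a b
  obtain ⟨M', hM', h1', h2'⟩ := exists_period a' b'
  refine ⟨M * M', Nat.mul_pos hM hM', ?_, ?_, ?_, ?_⟩
  · exact fun j hj => (h1 j hj).trans (dvd_mul_right _ _)
  · exact fun j hj => (h2 j hj).trans (dvd_mul_right _ _)
  · exact fun j hj => (h1' j hj).trans (dvd_mul_left _ _)
  · exact fun j hj => (h2' j hj).trans (dvd_mul_left _ _)

/-- The sum of the class values over a period is the period times the mean. -/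
theorem sum_av {M : ℕ} {a : Ix →₀ ℝ} (h : Period M a) :
    ∑ r ∈ range M, av a r = M * lam a := by
  unfold av lam Finsupp.sum
  rw [Finset.sum_comm, Finset.mul_sum]
  refine Finset.sum_congr rfl fun j hj => ?_
  have h1 := count_class (j.1 : ℕ) M j.1.pos (h j hj) j.2
  have h2 : ∑ r ∈ range M, (if Hit j (r : ℤ) then a j else 0) =
      a j * ∑ r ∈ range M, (if ((j.1 : ℕ) : ℤ) ∣ (r : ℤ) - j.2 then (1 : ℝ) else 0) := by
    rw [Finset.mul_sum]
    refine Finset.sum_congr rfl fun r _ => ?_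
    unfold Hit
    split_ifs <;> simp
  rw [h2, h1]
  ring

/-- Positivity on a residue class: genericity forces the mean to dominate the signed part. -/
theorem class_pos {s : ℤ → ℝ} (hg : Generic s) {M : ℕ} (hM : 0 < M)
    {a b : Ix →₀ ℝ} (ha : Period M a) (hb : Period M b) (r : ℤ) (c : ℝ) (B : ℤ)
    (h : ∀ n, B < n → (M : ℤ) ∣ n - r → c ≤ av a n + tv s b n) :
    c + bv b r ≤ av a r := by
  classical
  obtain ⟨n, hn, hnr, hn2⟩ := hg M r (b.support.filter fun j => Hit j r)
    (fun j => if 0 < b j then -1 else 1) B hM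
    (fun j => by split_ifs <;> simp) (fun j hj => by
      rw [Finset.mem_filter] at hj
      exact ⟨hj.2, Int.natCast_dvd_natCast.2 (hb j hj.1)⟩)
  have h1 := h n hn hnr
  rw [av_congr ha hnr] at h1
  have h2 : tv s b n = - bv b r := by
    unfold tv bv Finsupp.sum
    rw [← Finset.sum_neg_distrib]
    refine Finset.sum_congr rfl fun j hj => ?_
    simp only [hit_iff_of_dvd (hb j hj) hnr]
    by_cases hh : Hit j r
    · rw [if_pos hh, if_pos hh]
      have h3 := hn2 j (Finset.mem_filter.2 ⟨hj, hh⟩)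
      change s (pos j n) = _ at h3
      rw [h3]
      split_ifs with h4
      · rw [abs_of_pos h4]; ring
      · rw [abs_of_nonpos (not_lt.1 h4)]; ring
    · rw [if_neg hh, if_neg hh, neg_zero]
  rw [h2] at h1
  linarith

end Pool.Agent.W_MP_52e7c8_nt
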