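import Pool.Agent.W_MP_52e7c8_nt.Comb

/-!
# The upper density attached to a generic sign sequence
-/

namespace Pool.Agent.W_MP_52e7c8_nt

open Finset

/-- Properties of the ambient set `H ⊆ ℤ` that we use. -/
structure GoodSet (H : Set ℤ) : Prop where
  pos : ∀ n : ℤ, 1 ≤ n → n ∈ H
  aff : ∀ k h : ℤ, 1 ≤ k → 1 ≤ h → ∀ m ∈ H, k * m + h ∈ H
  inv : ∀ k h : ℤ, 1 ≤ k → 1 ≤ h → ∃ B : ℤ, ∀ m, B < |k * m + h| → k * m + h ∈ H → m ∈ H

/-- `(a, b)` covers `Z`: the attached function is nonnegative on `H` and at least one on `Z`,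
up to finitely many points. -/
def Cov (H : Set ℤ) (s : ℤ → ℝ) (Z : Set ℤ) (a b : Ix →₀ ℝ) : Prop :=
  ∃ B : ℤ, ∀ n ∈ H, B < |n| → 0 ≤ av a n + tv s b n ∧ (n ∈ Z → 1 ≤ av a n + tv s b n)

/-- The set of masses of covers of `Z`. -/
def masses (H : Set ℤ) (s : ℤ → ℝ) (Z : Set ℤ) : Set ℝ :=
  {x | ∃ a b, Cov H s Z a b ∧ x = lam a}

/-- The upper density. -/
noncomputable def mu (H : Set ℤ) (s : ℤ → ℝ) (Z : Set ℤ) : ℝ := sInf (masses H s Z)

variable {H : Set ℤ} {s : ℤ → ℝ}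

theorem cov_one (Z : Set ℤ) : Cov H s Z (Finsupp.single (1, 0) 1) 0 := by
  refine ⟨0, fun n _ _ => ?_⟩
  have h : Hit ((1 : ℕ+), (0 : ℤ)) n := by simp [Hit]
  rw [av_single, if_pos h, tv_zero]
  norm_num

theorem lam_one : lam (Finsupp.single ((1 : ℕ+), (0 : ℤ)) 1) = 1 := by
  rw [lam_single]; simp

theorem masses_nonempty (Z : Set ℤ) : (masses H s Z).Nonempty :=
  ⟨1, _, _, cov_one Z, lam_one.symm⟩

/-- Lower bound for the class values of a combination. -/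
theorem class_lower (hH : GoodSet H) (hg : Generic s) {M : ℕ} (hM : 0 < M)
    {a b : Ix →₀ ℝ} (ha : Period M a) (hb : Period M b) (c : ℝ) (B : ℤ)
    (h : ∀ n ∈ H, B < |n| → c ≤ av a n + tv s b n) (r : ℤ) : c + bv b r ≤ av a r := by
  refine class_pos hg hM ha hb r c (max B 1) fun n hn _ => h n (hH.pos n ?_) ?_
  · exact (le_max_right B 1).trans hn.le
  · exact (lt_of_le_of_lt (le_max_left B 1) hn).trans_le (le_abs_self n)

theorem le_lam (hH : GoodSet H) (hg : Generic s) {a b : Ix →₀ ℝ} (c : ℝ) (B : ℤ)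
    (h : ∀ n ∈ H, B < |n| → c ≤ av a n + tv s b n) : c ≤ lam a := by
  obtain ⟨M, hM, ha, hb⟩ := exists_period a b
  have h1 := class_lower hH hg hM ha hb c B h
  have h2 : ∑ r ∈ range M, c ≤ ∑ r ∈ range M, av a r :=
    Finset.sum_le_sum fun r _ => by
      have := h1 r
      have := bv_nonneg b r
      linarith
  rw [sum_av ha, Finset.sum_const, Finset.card_range, nsmul_eq_mul] at h2
  have hM' : (0 : ℝ) < M := by exact_mod_cast hM
  exact le_of_mul_le_mul_left h2 hM'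

theorem masses_nonneg (hH : GoodSet H) (hg : Generic s) (Z : Set ℤ) :
    ∀ x ∈ masses H s Z, 0 ≤ x := by
  rintro x ⟨a, b, ⟨B, hB⟩, rfl⟩
  exact le_lam hH hg 0 B fun n hn hB' => (hB n hn hB').1

theorem masses_bddBelow (hH : GoodSet H) (hg : Generic s) (Z : Set ℤ) :
    BddBelow (masses H s Z) := ⟨0, masses_nonneg hH hg Z⟩

theorem mu_le (hH : GoodSet H) (hg : Generic s) {Z : Set ℤ} {a b : Ix →₀ ℝ}
    (h : Cov H s Z a b) : mu H s Z ≤ lam a :=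
  csInf_le (masses_bddBelow hH hg Z) ⟨a, b, h, rfl⟩

theorem mu_nonneg (hH : GoodSet H) (hg : Generic s) (Z : Set ℤ) : 0 ≤ mu H s Z :=
  le_csInf (masses_nonempty Z) (masses_nonneg hH hg Z)

theorem exists_cov {Z : Set ℤ} {x : ℝ} (hx : mu H s Z < x) :
    ∃ a b, Cov H s Z a b ∧ lam a < x := by
  obtain ⟨y, ⟨a, b, h, rfl⟩, hy⟩ := exists_lt_of_csInf_lt (masses_nonempty Z) hx
  exact ⟨a, b, h, hy⟩

theorem mu_le_one (hH : GoodSet H) (hg : Generic s) (Z : Set ℤ) : mu H s Z ≤ 1 := by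
  have := mu_le hH hg (cov_one Z)
  rwa [lam_one] at this

theorem mu_mono (hH : GoodSet H) (hg : Generic s) {Z Z' : Set ℤ} (h : Z ⊆ Z') :
    mu H s Z ≤ mu H s Z' := by
  refine le_csInf (masses_nonempty Z') ?_
  rintro x ⟨a, b, ⟨B, hB⟩, rfl⟩
  exact mu_le hH hg ⟨B, fun n hn hn' => ⟨(hB n hn hn').1, fun hz => (hB n hn hn').2 (h hz)⟩⟩

theorem mu_univ (hH : GoodSet H) (hg : Generic s) : mu H s H = 1 := by
  refine le_antisymm (mu_le_one hH hg H) (le_csInf (masses_nonempty H) ?_)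
  rintro x ⟨a, b, ⟨B, hB⟩, rfl⟩
  exact le_lam hH hg 1 B fun n hn hB' => (hB n hn hB').2 hn

theorem Cov.add {Z Z' : Set ℤ} {a b a' b' : Ix →₀ ℝ} (h : Cov H s Z a b)
    (h' : Cov H s Z' a' b') : Cov H s (Z ∪ Z') (a + a') (b + b') := by
  obtain ⟨B, hB⟩ := h
  obtain ⟨B', hB'⟩ := h'
  refine ⟨max B B', fun n hn hn' => ?_⟩
  obtain ⟨h1, h2⟩ := hB n hn (lt_of_le_of_lt (le_max_left _ _) hn')
  obtain ⟨h1', h2'⟩ := hB' n hn (lt_of_le_of_lt (le_max_right _ _) hn')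
  rw [av_add, tv_add]
  refine ⟨by linarith, ?_⟩
  rintro (hz | hz)
  · have := h2 hz; linarith
  · have := h2' hz; linarith

theorem mu_union_le (hH : GoodSet H) (hg : Generic s) (Z Z' : Set ℤ) :
    mu H s (Z ∪ Z') ≤ mu H s Z + mu H s Z' := by
  refine le_of_forall_pos_lt_add fun ε hε => ?_
  obtain ⟨a, b, h, h1⟩ := exists_cov (H := H) (s := s) (Z := Z) (x := mu H s Z + ε / 2)
    (by linarith)
  obtain ⟨a', b', h', h1'⟩ := exists_cov (H := H) (s := s) (Z := Z') (x := mu H s Z' + ε / 2)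
    (by linarith)
  have := mu_le hH hg (h.add h')
  rw [lam_add] at this
  linarith

/-! ### Scaling, upper bound -/

/-- The affine map on indices. -/
def phi (k : ℕ+) (h : ℤ) (j : Ix) : Ix := (k * j.1, ((k : ℕ) : ℤ) * j.2 + h)

theorem phi_injective (k : ℕ+) (h : ℤ) : Function.Injective (phi k h) := by
  rintro ⟨a, b⟩ ⟨c, d⟩ h'
  simp only [phi, Prod.mk.injEq, mul_right_inj, add_left_inj, mul_eq_mul_left_iff] at h'
  rcases h' with ⟨h1, h2 | h2⟩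
  · rw [h1, h2]
  · exact absurd h2 (by exact_mod_cast k.pos.ne')

theorem hit_phi (k : ℕ+) (h : ℤ) (j : Ix) (m : ℤ) :
    Hit (phi k h j) (((k : ℕ) : ℤ) * m + h) ↔ Hit j m := by
  unfold Hit phi
  have e : ((k : ℕ) : ℤ) * m + h - (((k : ℕ) : ℤ) * j.2 + h) = ((k : ℕ) : ℤ) * (m - j.2) := by ring
  simp only [e, PNat.mul_coe, Nat.cast_mul]
  exact mul_dvd_mul_iff_left (by exact_mod_cast k.pos.ne')

theorem pos_phi (k : ℕ+) (h : ℤ) (j : Ix) (m : ℤ) :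
    pos (phi k h j) (((k : ℕ) : ℤ) * m + h) = pos j m := by
  unfold pos phi
  have e : ((k : ℕ) : ℤ) * m + h - (((k : ℕ) : ℤ) * j.2 + h) = ((k : ℕ) : ℤ) * (m - j.2) := by ring
  simp only [e, PNat.mul_coe, Nat.cast_mul]
  exact Int.mul_ediv_mul_of_pos _ _ (by exact_mod_cast k.pos)

theorem dvd_of_hit_phi (k : ℕ+) (h : ℤ) (j : Ix) (n : ℤ) (hn : Hit (phi k h j) n) :
    ((k : ℕ) : ℤ) ∣ n - h := by
  unfold Hit phi at hn
  simp only [PNat.mul_coe, Nat.cast_mul] at hn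
  have h1 : ((k : ℕ) : ℤ) ∣ n - (((k : ℕ) : ℤ) * j.2 + h) := (dvd_mul_right _ _).trans hn
  have e : n - h = (n - (((k : ℕ) : ℤ) * j.2 + h)) + ((k : ℕ) : ℤ) * j.2 := by ring
  rw [e]
  exact dvd_add h1 (dvd_mul_right _ _)

theorem av_map (k : ℕ+) (h : ℤ) (a : Ix →₀ ℝ) (m : ℤ) :
    av (a.mapDomain (phi k h)) (((k : ℕ) : ℤ) * m + h) = av a m := by
  unfold av
  rw [Finsupp.sum_mapDomain_index_inj (phi_injective k h)]
  simp only [hit_phi]

theorem tv_map (s : ℤ → ℝ) (k : ℕ+) (h : ℤ) (a : Ix →₀ ℝ) (m : ℤ) :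
    tv s (a.mapDomain (phi k h)) (((k : ℕ) : ℤ) * m + h) = tv s a m := by
  unfold tv
  rw [Finsupp.sum_mapDomain_index_inj (phi_injective k h)]
  simp only [hit_phi, pos_phi]

theorem av_map_of_not (k : ℕ+) (h : ℤ) (a : Ix →₀ ℝ) (n : ℤ) (hn : ¬ ((k : ℕ) : ℤ) ∣ n - h) :
    av (a.mapDomain (phi k h)) n = 0 := by
  unfold av
  rw [Finsupp.sum_mapDomain_index_inj (phi_injective k h)]
  refine Finset.sum_eq_zero fun j _ => ?_
  exact if_neg fun hh => hn (dvd_of_hit_phi k h j n hh)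

theorem tv_map_of_not (s : ℤ → ℝ) (k : ℕ+) (h : ℤ) (a : Ix →₀ ℝ) (n : ℤ)
    (hn : ¬ ((k : ℕ) : ℤ) ∣ n - h) : tv s (a.mapDomain (phi k h)) n = 0 := by
  unfold tv
  rw [Finsupp.sum_mapDomain_index_inj (phi_injective k h)]
  refine Finset.sum_eq_zero fun j _ => ?_
  exact if_neg fun hh => hn (dvd_of_hit_phi k h j n hh)

theorem lam_map (k : ℕ+) (h : ℤ) (a : Ix →₀ ℝ) :
    lam (a.mapDomain (phi k h)) = lam a / ((k : ℕ) : ℝ) := by
  unfold lam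
  rw [Finsupp.sum_mapDomain_index_inj (phi_injective k h)]
  unfold Finsupp.sum
  rw [Finset.sum_div]
  refine Finset.sum_congr rfl fun j _ => ?_
  have h1 : ((k : ℕ) : ℝ) ≠ 0 := by exact_mod_cast k.pos.ne'
  have h2 : ((j.1 : ℕ) : ℝ) ≠ 0 := by exact_mod_cast j.1.pos.ne'
  simp only [phi, PNat.mul_coe, Nat.cast_mul]
  field_simp

theorem cov_map (hH : GoodSet H) (k : ℕ+) {h : ℤ} (hh : 1 ≤ h) {Z : Set ℤ} {a b : Ix →₀ ℝ}
    (hc : Cov H s Z a b) :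
    Cov H s ((fun m => ((k : ℕ) : ℤ) * m + h) '' Z)
      (a.mapDomain (phi k h)) (b.mapDomain (phi k h)) := by
  obtain ⟨B, hB⟩ := hc
  have hk : (1 : ℤ) ≤ ((k : ℕ) : ℤ) := by exact_mod_cast k.pos
  obtain ⟨B₁, hB₁⟩ := hH.inv ((k : ℕ) : ℤ) h hk hh
  refine ⟨max B₁ (((k : ℕ) : ℤ) * |B| + h), fun n hn hn' => ?_⟩
  by_cases hd : ((k : ℕ) : ℤ) ∣ n - h
  · obtain ⟨m, hm⟩ := hd
    have hnm : n = ((k : ℕ) : ℤ) * m + h := by linarith
    subst hnm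
    have hmH : m ∈ H := hB₁ m (lt_of_le_of_lt (le_max_left _ _) hn') hn
    have hmB : B < |m| := by
      have h1 : ((k : ℕ) : ℤ) * |B| + h < |((k : ℕ) : ℤ) * m + h| :=
        lt_of_le_of_lt (le_max_right _ _) hn'
      have h2 : |((k : ℕ) : ℤ) * m + h| ≤ ((k : ℕ) : ℤ) * |m| + h := by
        refine (abs_add_le _ _).trans ?_
        rw [abs_mul, abs_of_nonneg (by linarith : (0 : ℤ) ≤ ((k : ℕ) : ℤ)),
          abs_of_nonneg (by linarith : (0 : ℤ) ≤ h)]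
      have h3 : ((k : ℕ) : ℤ) * |B| < ((k : ℕ) : ℤ) * |m| := by linarith
      exact (le_abs_self B).trans_lt (lt_of_mul_lt_mul_left h3 (by linarith))
    rw [av_map, tv_map]
    obtain ⟨h1, h2⟩ := hB m hmH hmB
    refine ⟨h1, ?_⟩
    rintro ⟨m', hm', he⟩
    have : m' = m := by
      have h3 : ((k : ℕ) : ℤ) * m' = ((k : ℕ) : ℤ) * m := by simpa using he
      exact mul_left_cancel₀ (by linarith : ((k : ℕ) : ℤ) ≠ 0) h3
    exact h2 (this ▸ hm')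
  · rw [av_map_of_not k h a n hd, tv_map_of_not s k h b n hd]
    refine ⟨by norm_num, ?_⟩
    rintro ⟨m, _, rfl⟩
    exact absurd ⟨m, by ring⟩ hd

end Pool.Agent.W_MP_52e7c8_nt
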