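import Pool.Agent.W_MP_52e7c8_nt.Scale

/-!
# The set `X` and its subsets in the domain
-/

namespace Pool.Agent.W_MP_52e7c8_nt

open Finset

variable {H : Set ℤ} {s : ℤ → ℝ}

/-- The set where the sign is `+1`. -/
def plusSet (H : Set ℤ) (s : ℤ → ℝ) : Set ℤ := {n | n ∈ H ∧ s n = 1}

theorem hit_one (n : ℤ) : Hit ((1 : ℕ+), (0 : ℤ)) n := by simp [Hit]

theorem pos_one (n : ℤ) : pos ((1 : ℕ+), (0 : ℤ)) n = n := by simp [pos]

theorem mu_plus_le (hH : GoodSet H) (hs : ∀ n, s n = 1 ∨ s n = -1) (hg : Generic s) :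
    mu H s (plusSet H s) ≤ 1 / 2 := by
  have hc : Cov H s (plusSet H s) (Finsupp.single (1, 0) (1 / 2)) (Finsupp.single (1, 0) (1 / 2)) := by
    refine ⟨0, fun n _ _ => ?_⟩
    rw [av_single, if_pos (hit_one n), tv_single, if_pos (hit_one n), pos_one]
    refine ⟨?_, fun hn => ?_⟩
    · rcases hs n with h | h <;> rw [h] <;> norm_num
    · rw [hn.2]; norm_num
  have := mu_le hH hg hc
  rw [lam_single] at this
  simpa using this

theorem mu_minus_le (hH : GoodSet H) (hs : ∀ n, s n = 1 ∨ s n = -1) (hg : Generic s) :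
    mu H s (H \ plusSet H s) ≤ 1 / 2 := by
  have hc : Cov H s (H \ plusSet H s) (Finsupp.single (1, 0) (1 / 2))
      (Finsupp.single (1, 0) (-(1 / 2))) := by
    refine ⟨0, fun n _ _ => ?_⟩
    rw [av_single, if_pos (hit_one n), tv_single, if_pos (hit_one n), pos_one]
    refine ⟨?_, fun hn => ?_⟩
    · rcases hs n with h | h <;> rw [h] <;> norm_num
    · rcases hs n with h | h
      · exact absurd ⟨hn.1, h⟩ hn.2
      · rw [h]; norm_num
  have := mu_le hH hg hc
  rw [lam_single] at this
  simpa using this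

theorem one_le_add (hH : GoodSet H) (hg : Generic s) {Z : Set ℤ} (hZ : Z ⊆ H) :
    1 ≤ mu H s Z + mu H s (H \ Z) := by
  have h1 := mu_union_le hH hg Z (H \ Z)
  rw [Set.union_sdiff_cancel hZ, mu_univ hH hg] at h1
  exact h1

theorem mu_plus (hH : GoodSet H) (hs : ∀ n, s n = 1 ∨ s n = -1) (hg : Generic s) :
    mu H s (plusSet H s) = 1 / 2 ∧ mu H s (H \ plusSet H s) = 1 / 2 := by
  have h1 := mu_plus_le hH hs hg
  have h2 := mu_minus_le hH hs hg
  have h3 := one_le_add hH hg (Z := plusSet H s) (fun n hn => hn.1)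
  constructor <;> linarith

/-- A set contained, up to finitely many points, in few residue classes has small density. -/
theorem mu_le_classes (hH : GoodSet H) (hg : Generic s) {M : ℕ} (hM : 0 < M) (t : Finset ℕ)
    (ht : t ⊆ range M) {Z : Set ℤ} (B : ℤ)
    (hZ : ∀ n ∈ Z, n ∈ H → B < |n| → ∃ r ∈ t, (M : ℤ) ∣ n - r) :
    mu H s Z ≤ (t.card : ℝ) / M := by
  classical
  let M' : ℕ+ := ⟨M, hM⟩
  let c : ℤ → ℝ := fun n => if ∃ r ∈ t, (M : ℤ) ∣ n - r then 1 else 0
  have hc : ∀ n r : ℤ, ((M' : ℕ) : ℤ) ∣ n - r → c n = c r := by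
    intro n r hnr
    have : (∃ i ∈ t, (M : ℤ) ∣ n - i) ↔ (∃ i ∈ t, (M : ℤ) ∣ r - i) := by
      constructor
      · rintro ⟨i, hi, h⟩
        refine ⟨i, hi, ?_⟩
        have e : r - (i : ℤ) = (n - i) - (n - r) := by ring
        rw [e]; exact dvd_sub h hnr
      · rintro ⟨i, hi, h⟩
        refine ⟨i, hi, ?_⟩
        have e : n - (i : ℤ) = (n - r) + (r - i) := by ring
        rw [e]; exact dvd_add hnr h
    simp only [c, this]
  have hcov : Cov H s Z (apPart M' c) 0 := by
    refine ⟨B, fun n hn hn' => ?_⟩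
    rw [av_apPart M' c hc, tv_zero, add_zero]
    refine ⟨?_, fun hnZ => ?_⟩
    · simp only [c]; split_ifs <;> norm_num
    · simp only [c]
      rw [if_pos (hZ n hnZ hn hn')]
  refine (mu_le hH hg hcov).trans ?_
  rw [lam_apPart]
  have hM0 : (0 : ℝ) < (M : ℝ) := by exact_mod_cast hM
  change (∑ i ∈ range M, c i) / (M : ℝ) ≤ _
  refine div_le_div_of_nonneg_right ?_ hM0.le
  have h1 : ∑ i ∈ range M, c i = ∑ i ∈ t, (1 : ℝ) := by
    rw [← Finset.sum_subset ht]
    · refine Finset.sum_congr rfl fun i hi => ?_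
      simp only [c]
      rw [if_pos ⟨i, hi, by simp⟩]
    · intro i hi hit
      simp only [c]
      rw [if_neg]
      rintro ⟨j, hj, hd⟩
      have hj' := Finset.mem_range.1 (ht hj)
      have hi' := Finset.mem_range.1 hi
      have h4 : (i : ℤ) - (j : ℤ) = 0 := by
        apply Int.eq_zero_of_abs_lt_dvd hd
        rw [abs_lt]
        constructor <;> omega
      have : i = j := by omega
      exact hit (this ▸ hj)
  rw [h1]
  simp

/-- The dichotomy: a subset `Y` of the plus set with nearly minimal total mass is nearly null or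
nearly full. -/
theorem dichotomy (hH : GoodSet H) (hs : ∀ n, s n = 1 ∨ s n = -1) (hg : Generic s)
    {Y : Set ℤ} (hY : Y ⊆ plusSet H s) (hdom : mu H s Y + mu H s (H \ Y) = 1)
    {η : ℝ} (hη : 0 < η) : mu H s Y ≤ 8 * η ∨ 1 / 2 - 8 * η ≤ mu H s Y := by
  classical
  obtain ⟨a, b, ⟨B, hB⟩, h1⟩ := exists_cov (H := H) (s := s) (Z := Y) (x := mu H s Y + η / 2)
    (by linarith)
  obtain ⟨a', b', ⟨B', hB'⟩, h1'⟩ := exists_cov (H := H) (s := s) (Z := H \ Y)
    (x := mu H s (H \ Y) + η / 2) (by linarith)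
  obtain ⟨M, hM, ha, hb, ha', hb'⟩ := exists_period4 a b a' b'
  have hM0 : (0 : ℝ) < (M : ℝ) := by exact_mod_cast hM
  -- lower bound for the class values of the sum
  have hcl : ∀ r : ℤ, 1 + bv (b + b') r ≤ av (a + a') r := by
    refine class_lower hH hg hM (ha.add ha') (hb.add hb') 1 (max B B') fun n hn hn' => ?_
    obtain ⟨h2, h3⟩ := hB n hn (lt_of_le_of_lt (le_max_left _ _) hn')
    obtain ⟨h2', h3'⟩ := hB' n hn (lt_of_le_of_lt (le_max_right _ _) hn')
    rw [av_add, tv_add]
    by_cases hnY : n ∈ Y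
    · have := h3 hnY; linarith
    · have := h3' ⟨hn, hnY⟩; linarith
  -- the defect of a class
  let D : ℤ → ℝ := fun r => av (a + a') r - 1
  have hD0 : ∀ r, 0 ≤ D r := fun r => by
    have := hcl r
    have := bv_nonneg (b + b') r
    simp only [D]; linarith
  have hDsum : ∑ r ∈ range M, D r ≤ M * η := by
    simp only [D]
    rw [Finset.sum_sub_distrib, sum_av (ha.add ha'), lam_add]
    simp only [sum_const, card_range, nsmul_eq_mul, mul_one]
    have : lam a + lam a' - 1 ≤ η := by linarith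
    nlinarith
  let t : Finset ℕ := (range M).filter fun r => 1 / 8 < D r
  have htM : t ⊆ range M := Finset.filter_subset _ _
  have htcard : (t.card : ℝ) / M ≤ 8 * η := by
    rw [div_le_iff₀ hM0]
    have h4 : ∑ r ∈ t, (1 / 8 : ℝ) ≤ ∑ r ∈ t, D r :=
      Finset.sum_le_sum fun r hr => (Finset.mem_filter.1 hr).2.le
    have h5 : ∑ r ∈ t, D r ≤ ∑ r ∈ range M, D r :=
      Finset.sum_le_sum_of_subset_of_nonneg htM fun r _ _ => hD0 r
    rw [Finset.sum_const, nsmul_eq_mul] at h4
    linarith
  -- the coefficient of the main signed progression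
  set β : ℝ := b (1, 0) with hβ
  set b₀ : Ix →₀ ℝ := b.erase (1, 0) with hb₀
  have hbsplit : b = Finsupp.single (1, 0) β + b₀ := (Finsupp.single_add_erase (1, 0) b).symm
  have htvsplit : ∀ n, tv s b n = β * s n + tv s b₀ n := by
    intro n
    conv_lhs => rw [hbsplit]
    rw [tv_add, tv_single, if_pos (hit_one n), pos_one]
  -- comparison on good classes
  have hgood : ∀ n ∈ plusSet H s, max B B' < |n| → (¬ ∃ r ∈ t, (M : ℤ) ∣ n - r) →
      (n ∈ Y → 3 / 4 ≤ 2 * β) ∧ (n ∉ Y → 2 * β ≤ 1 / 4) := by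
    intro n hn hn' hnt
    obtain ⟨hnH, hsn⟩ := hn
    -- the class of `n` is good
    have hDn : D n ≤ 1 / 8 := by
      by_contra hcon
      push Not at hcon
      apply hnt
      have hMz : (0 : ℤ) < (M : ℤ) := by exact_mod_cast hM
      have h0 : 0 ≤ n % (M : ℤ) := Int.emod_nonneg _ hMz.ne'
      have h1 : n % (M : ℤ) < (M : ℤ) := Int.emod_lt_of_pos _ hMz
      obtain ⟨i, hi⟩ := Int.eq_ofNat_of_zero_le h0
      have hdvd : (M : ℤ) ∣ n - (i : ℤ) := by
        rw [show ((i : ℕ) : ℤ) = n % (M : ℤ) from hi.symm]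
        exact Int.dvd_self_sub_emod
      have hiM : i < M := by rw [hi] at h1; exact_mod_cast h1
      refine ⟨i, Finset.mem_filter.2 ⟨Finset.mem_range.2 hiM, ?_⟩, hdvd⟩
      have : D i = D n := by
        simp only [D]
        rw [av_congr (ha.add ha') hdvd]
      rw [this]; exact hcon
    -- a companion point outside of the plus set
    obtain ⟨n', hn'1, hn'2, hn'3⟩ := hg M n (insert (1, 0) (b₀.support.filter fun j => Hit j n))
      (fun j => if j = (1, 0) then -1 else s (pos j n)) (max (max B B') 1) hM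
      (fun j => by
        split_ifs
        · right; rfl
        · exact hs _)
      (fun j hj => by
        rcases Finset.mem_insert.1 hj with h | h
        · subst h; simp
        · rw [Finset.mem_filter] at h
          refine ⟨h.2, ?_⟩
          have hjb : j ∈ b.support := by
            have := h.1
            rw [hb₀, Finsupp.support_erase, Finset.mem_erase] at this
            exact this.2
          exact_mod_cast hb j hjb)
    have hn'H : n' ∈ H := hH.pos n' ((le_max_right _ _).trans hn'1.le)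
    have hn'B : max B B' < |n'| :=
      (lt_of_le_of_lt (le_max_left _ _) hn'1).trans_le (le_abs_self _)
    have hsn' : s n' = -1 := by
      have := hn'3 (1, 0) (Finset.mem_insert_self _ _)
      simpa using this
    have hn'Y : n' ∉ Y := by
      intro h
      have := (hY h).2
      rw [hsn'] at this
      norm_num at this
    have htv₀ : tv s b₀ n' = tv s b₀ n := by
      unfold tv Finsupp.sum
      refine Finset.sum_congr rfl fun j hj => ?_
      have hjb : j ∈ b.support ∧ j ≠ (1, 0) := by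
        rw [hb₀, Finsupp.support_erase, Finset.mem_erase] at hj
        exact ⟨hj.2, hj.1⟩
      simp only [hit_iff_of_dvd (hb j hjb.1) hn'2]
      by_cases hh : Hit j n
      · rw [if_pos hh, if_pos hh]
        have h3 := hn'3 j (Finset.mem_insert_of_mem (Finset.mem_filter.2 ⟨hj, hh⟩))
        rw [if_neg hjb.2] at h3
        change s (pos j n') = _ at h3
        rw [h3]
      · rw [if_neg hh, if_neg hh]
    have hav : av a n' = av a n := av_congr ha hn'2
    -- upper bound on a good class
    have hup : ∀ m : ℤ, (M : ℤ) ∣ m - n → av a m + tv s b m + (av a' m + tv s b' m) ≤ 1 + 1 / 4 := by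
      intro m hm
      have e1 : av a m + tv s b m + (av a' m + tv s b' m) = av (a + a') m + tv s (b + b') m := by
        rw [av_add, tv_add]; ring
      rw [e1]
      have e2 := (le_abs_self _).trans (abs_tv_le hs (b + b') m)
      have e3 := hcl m
      have e4 : av (a + a') m = av (a + a') n := av_congr (ha.add ha') hm
      have e5 : av (a + a') n - 1 ≤ 1 / 8 := hDn
      linarith
    obtain ⟨p1, p2⟩ := hB n hnH (lt_of_le_of_lt (le_max_left _ _) hn')
    obtain ⟨p1', p2'⟩ := hB' n hnH (lt_of_le_of_lt (le_max_right _ _) hn')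
    obtain ⟨q1, _⟩ := hB n' hn'H (lt_of_le_of_lt (le_max_left _ _) hn'B)
    obtain ⟨_, q2'⟩ := hB' n' hn'H (lt_of_le_of_lt (le_max_right _ _) hn'B)
    have q3 := q2' ⟨hn'H, hn'Y⟩
    have u1 := hup n (by simp)
    have u2 := hup n' hn'2
    have w1 := htvsplit n
    have w2 := htvsplit n'
    rw [hsn] at w1
    rw [hsn', htv₀] at w2
    constructor
    · intro hnY
      have := p2 hnY
      linarith
    · intro hnY
      have := p2' ⟨hnH, hnY⟩
      linarith
  by_cases hcase : 3 / 4 ≤ 2 * β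
  · -- `Y` is nearly full
    right
    have h6 : mu H s (plusSet H s \ Y) ≤ (t.card : ℝ) / M := by
      refine mu_le_classes hH hg hM t htM (max B B') fun n hn _ hn' => ?_
      by_contra hcon
      have := (hgood n hn.1 hn' hcon).2 hn.2
      linarith
    have h7 := mu_union_le hH hg Y (plusSet H s \ Y)
    rw [Set.union_sdiff_cancel hY, (mu_plus hH hs hg).1] at h7
    linarith
  · left
    refine (mu_le_classes hH hg hM t htM (max B B') fun n hn _ hn' => ?_).trans htcard
    by_contra hcon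
    exact hcase ((hgood n (hY hn) hn' hcon).1 hn)

theorem mu_zero_or_half (hH : GoodSet H) (hs : ∀ n, s n = 1 ∨ s n = -1) (hg : Generic s)
    {Y : Set ℤ} (hY : Y ⊆ plusSet H s) (hdom : mu H s Y + mu H s (H \ Y) = 1) :
    mu H s Y = 0 ∨ mu H s Y = 1 / 2 := by
  by_contra hcon
  push Not at hcon
  obtain ⟨h1, h2⟩ := hcon
  have h3 : 0 < mu H s Y := lt_of_le_of_ne (mu_nonneg hH hg Y) (Ne.symm h1)
  have h4 : mu H s Y < 1 / 2 := by
    refine lt_of_le_of_ne ?_ h2
    have := mu_mono hH hg (s := s) hY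
    rwa [(mu_plus hH hs hg).1] at this
  have hη : 0 < min (mu H s Y) (1 / 2 - mu H s Y) / 16 := by
    have := lt_min h3 (sub_pos.2 h4)
    linarith
  have hm1 := min_le_left (mu H s Y) (1 / 2 - mu H s Y)
  have hm2 := min_le_right (mu H s Y) (1 / 2 - mu H s Y)
  rcases dichotomy hH hs hg hY hdom hη with h | h
  · linarith
  · linarith

/-- The three ambient sets are good. -/
theorem goodSet_univ : GoodSet Set.univ :=
  ⟨fun _ _ => Set.mem_univ _, fun _ _ _ _ _ _ => Set.mem_univ _,
    fun _ _ _ _ => ⟨0, fun _ _ _ => Set.mem_univ _⟩⟩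

theorem goodSet_ge (c : ℤ) (h0 : 0 ≤ c) (h1 : c ≤ 1) : GoodSet {n : ℤ | c ≤ n} := by
  refine ⟨fun n hn => ?_, fun k h hk hh m hm => ?_, fun k h hk hh => ⟨h, fun m hm hm' => ?_⟩⟩
  · change c ≤ n; linarith
  · change c ≤ k * m + h
    have hm' : c ≤ m := hm
    have : 0 ≤ k * m := mul_nonneg (by linarith) (by linarith)
    linarith
  · have h2 : c ≤ k * m + h := hm'
    rw [abs_of_nonneg (by linarith)] at hm
    have h3 : 0 < k * m := by linarith
    have h4 : 0 < m := (mul_pos_iff_of_pos_left (by linarith)).1 h3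
    change c ≤ m
    linarith

end Pool.Agent.W_MP_52e7c8_nt
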