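import Mathlib

/-!
# A generic sign sequence on the integers
-/

namespace Pool.Agent.W_MP_52e7c8_nt

/-- Genericity of a sign sequence. -/
def Generic (s : ℤ → ℝ) : Prop :=
  ∀ (M : ℕ) (r : ℤ) (J : Finset (ℕ+ × ℤ)) (σ : ℕ+ × ℤ → ℝ) (B : ℤ), 0 < M →
    (∀ j, σ j = 1 ∨ σ j = -1) → (∀ j ∈ J, ((j.1 : ℕ) : ℤ) ∣ r - j.2 ∧ ((j.1 : ℕ) : ℤ) ∣ M) →
    ∃ n, B < n ∧ (M : ℤ) ∣ n - r ∧ ∀ j ∈ J, s ((n - j.2) / ((j.1 : ℕ) : ℤ)) = σ j

/-- The sign attached to a boolean. -/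
def sg (b : Bool) : ℝ := if b then 1 else -1

theorem exists_large (M : ℕ) (r B : ℤ) (hM : 0 < M) : ∃ n, B < n ∧ (M : ℤ) ∣ n - r := by
  refine ⟨r + M * (|B| + |r| + 1), ?_, ⟨|B| + |r| + 1, by ring⟩⟩
  have h1 : (1 : ℤ) ≤ M := by exact_mod_cast hM
  have h2 : |B| + |r| + 1 ≤ M * (|B| + |r| + 1) := by
    have : 0 ≤ |B| + |r| + 1 := by positivity
    nlinarith
  have h3 := neg_abs_le r
  have h4 := le_abs_self B
  linarith

/-- Key combinatorial step: positions for large `n` are distinct and avoid a finite set. -/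
theorem positions (J : Finset (ℕ+ × ℤ)) (F : Finset ℤ) : ∃ N : ℤ, ∀ n > N,
    (∀ j ∈ J, ((j.1 : ℕ) : ℤ) ∣ n - j.2) →
    (∀ j ∈ J, (n - j.2) / ((j.1 : ℕ) : ℤ) ∉ F) ∧
    (∀ j ∈ J, ∀ j' ∈ J, (n - j.2) / ((j.1 : ℕ) : ℤ) = (n - j'.2) / ((j'.1 : ℕ) : ℤ) → j = j') := by
  obtain ⟨K, hK1, hKJ, hKF⟩ : ∃ K : ℤ, 1 ≤ K ∧
      (∀ j ∈ J, ((j.1 : ℕ) : ℤ) ≤ K ∧ |j.2| ≤ K) ∧ (∀ f ∈ F, |f| ≤ K) := by
    refine ⟨1 + ∑ j ∈ J, (((j.1 : ℕ) : ℤ) + |j.2|) + ∑ f ∈ F, |f|, ?_, ?_, ?_⟩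
    · have h1 : 0 ≤ ∑ j ∈ J, (((j.1 : ℕ) : ℤ) + |j.2|) :=
        Finset.sum_nonneg fun j _ => by positivity
      have h2 : 0 ≤ ∑ f ∈ F, |f| := Finset.sum_nonneg fun f _ => by positivity
      linarith
    · intro j hj
      have h1 : ((j.1 : ℕ) : ℤ) + |j.2| ≤ ∑ j ∈ J, (((j.1 : ℕ) : ℤ) + |j.2|) :=
        Finset.single_le_sum (f := fun j : ℕ+ × ℤ => ((j.1 : ℕ) : ℤ) + |j.2|)
          (fun j _ => by positivity) hj
      have h2 : 0 ≤ ∑ f ∈ F, |f| := Finset.sum_nonneg fun f _ => by positivity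
      have h3 : 0 ≤ |j.2| := abs_nonneg _
      have h4 : (0 : ℤ) ≤ ((j.1 : ℕ) : ℤ) := by positivity
      constructor <;> linarith
    · intro f hf
      have h1 : 0 ≤ ∑ j ∈ J, (((j.1 : ℕ) : ℤ) + |j.2|) :=
        Finset.sum_nonneg fun j _ => by positivity
      have h2 : |f| ≤ ∑ f ∈ F, |f| :=
        Finset.single_le_sum (f := fun f : ℤ => |f|) (fun f _ => by positivity) hf
      linarith
  refine ⟨2 * K * K + K, fun n hn hd => ?_⟩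
  have key : ∀ j ∈ J, 2 * K < (n - j.2) / ((j.1 : ℕ) : ℤ) ∧
      ((j.1 : ℕ) : ℤ) * ((n - j.2) / ((j.1 : ℕ) : ℤ)) = n - j.2 := by
    intro j hj
    have hd' := Int.mul_ediv_cancel' (hd j hj)
    refine ⟨?_, hd'⟩
    obtain ⟨h1, h2⟩ := hKJ j hj
    have h3 := (abs_le.1 h2).2
    by_contra hcon
    push Not at hcon
    have h4 : (0 : ℤ) < ((j.1 : ℕ) : ℤ) := by exact_mod_cast j.1.pos
    have h5 : ((j.1 : ℕ) : ℤ) * ((n - j.2) / ((j.1 : ℕ) : ℤ)) ≤ K * (2 * K) := by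
      by_cases hneg : (n - j.2) / ((j.1 : ℕ) : ℤ) < 0
      · have : ((j.1 : ℕ) : ℤ) * ((n - j.2) / ((j.1 : ℕ) : ℤ)) ≤ 0 := by nlinarith
        nlinarith
      · push Not at hneg
        exact mul_le_mul h1 hcon hneg (by linarith)
    rw [hd'] at h5
    nlinarith
  constructor
  · intro j hj hF
    have h1 := (key j hj).1
    have h2 := (abs_le.1 (hKF _ hF)).2
    linarith
  · intro j hj j' hj' heq
    obtain ⟨h1, h2⟩ := key j hj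
    obtain ⟨h1', h2'⟩ := key j' hj'
    rw [← heq] at h2' h1'
    set p := (n - j.2) / ((j.1 : ℕ) : ℤ)
    have h3 : (((j.1 : ℕ) : ℤ) - ((j'.1 : ℕ) : ℤ)) * p = j'.2 - j.2 := by linarith
    have h4 := (abs_le.1 (hKJ j hj).2)
    have h5 := (abs_le.1 (hKJ j' hj').2)
    have h6 : ((j.1 : ℕ) : ℤ) = ((j'.1 : ℕ) : ℤ) := by
      by_contra hne
      rcases lt_or_gt_of_ne hne with hlt | hgt
      · have : (((j.1 : ℕ) : ℤ) - ((j'.1 : ℕ) : ℤ)) * p ≤ -1 * p :=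
          mul_le_mul_of_nonneg_right (by linarith) (by linarith)
        linarith
      · have : 1 * p ≤ (((j.1 : ℕ) : ℤ) - ((j'.1 : ℕ) : ℤ)) * p :=
          mul_le_mul_of_nonneg_right (by linarith) (by linarith)
        linarith
    have h7 : j.2 = j'.2 := by rw [h6] at h3; linarith
    have h8 : j.1 = j'.1 := PNat.coe_injective (by exact_mod_cast h6)
    exact Prod.ext h8 h7

/-- The open dense set attached to a requirement. -/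
theorem dense_req (M : ℕ) (hM : 0 < M) (r : ℤ) (J : Finset (ℕ+ × ℤ)) (P : Finset (ℕ+ × ℤ)) (B : ℤ)
    (hJ : ∀ j ∈ J, ((j.1 : ℕ) : ℤ) ∣ r - j.2 ∧ ((j.1 : ℕ) : ℤ) ∣ M) :
    Dense {u : ℤ → Bool | ∃ n, B < n ∧ (M : ℤ) ∣ n - r ∧
      ∀ j ∈ J, (u ((n - j.2) / ((j.1 : ℕ) : ℤ)) = decide (j ∈ P))} := by
  classical
  rw [dense_iff_inter_open]
  rintro U hU ⟨u₀, hu₀⟩
  obtain ⟨I, v, hv, hsub⟩ := isOpen_pi_iff.1 hU u₀ hu₀
  obtain ⟨N, hN⟩ := positions J I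
  obtain ⟨n, hn, hnr⟩ := exists_large M r (max B N) hM
  have hdvd : ∀ j ∈ J, ((j.1 : ℕ) : ℤ) ∣ n - j.2 := by
    intro j hj
    have h1 := (hJ j hj).1
    have h2 := (hJ j hj).2.trans hnr
    have : n - j.2 = (n - r) + (r - j.2) := by ring
    rw [this]
    exact dvd_add h2 h1
  obtain ⟨hav, hinj⟩ := hN n (lt_of_le_of_lt (le_max_right _ _) hn) hdvd
  let u : ℤ → Bool := fun p =>
    if h : ∃ j ∈ J, (n - j.2) / ((j.1 : ℕ) : ℤ) = p then decide (h.choose ∈ P) else u₀ p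
  refine ⟨u, hsub ?_, n, lt_of_le_of_lt (le_max_left _ _) hn, hnr, ?_⟩
  · intro i hi
    have : u i = u₀ i := by
      have hne : ¬ ∃ j ∈ J, (n - j.2) / ((j.1 : ℕ) : ℤ) = i := by
        rintro ⟨j, hj, rfl⟩
        exact hav j hj hi
      simp only [u, dif_neg hne]
    rw [this]
    exact (hv i hi).2
  · intro j hj
    have hex : ∃ j' ∈ J, (n - j'.2) / ((j'.1 : ℕ) : ℤ) = (n - j.2) / ((j.1 : ℕ) : ℤ) := ⟨j, hj, rfl⟩
    have hch := hex.choose_spec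
    have hjj : hex.choose = j := hinj _ hch.1 _ hj hch.2
    simp only [u, dif_pos hex]
    rw [hjj]

theorem isOpen_req (M : ℕ) (r : ℤ) (J : Finset (ℕ+ × ℤ)) (P : Finset (ℕ+ × ℤ)) (B : ℤ) :
    IsOpen {u : ℤ → Bool | ∃ n, B < n ∧ (M : ℤ) ∣ n - r ∧
      ∀ j ∈ J, (u ((n - j.2) / ((j.1 : ℕ) : ℤ)) = decide (j ∈ P))} := by
  have : {u : ℤ → Bool | ∃ n, B < n ∧ (M : ℤ) ∣ n - r ∧
      ∀ j ∈ J, (u ((n - j.2) / ((j.1 : ℕ) : ℤ)) = decide (j ∈ P))} =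
      ⋃ n ∈ {n : ℤ | B < n ∧ (M : ℤ) ∣ n - r}, ⋂ j ∈ J,
        {u : ℤ → Bool | u ((n - j.2) / ((j.1 : ℕ) : ℤ)) = decide (j ∈ P)} := by
    ext u
    simp only [Set.mem_ofPred_eq, Set.mem_iUnion, Set.mem_iInter, exists_prop, and_assoc]
  rw [this]
  refine isOpen_biUnion fun n _ => isOpen_biInter_finset fun j _ => ?_
  have hc : Continuous fun u : ℤ → Bool => u ((n - j.2) / ((j.1 : ℕ) : ℤ)) :=
    continuous_apply _
  exact (isOpen_discrete {decide (j ∈ P)}).preimage hc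

/-- A generic sign sequence exists. -/
theorem exists_generic : ∃ s : ℤ → ℝ, (∀ n, s n = 1 ∨ s n = -1) ∧ Generic s := by
  classical
  -- index set of requirements
  let ι := {q : ℕ × ℤ × Finset (ℕ+ × ℤ) × Finset (ℕ+ × ℤ) × ℤ //
    0 < q.1 ∧ ∀ j ∈ q.2.2.1, ((j.1 : ℕ) : ℤ) ∣ q.2.1 - j.2 ∧ ((j.1 : ℕ) : ℤ) ∣ q.1}
  let R : ι → Set (ℤ → Bool) := fun q => {u : ℤ → Bool | ∃ n, q.1.2.2.2.2 < n ∧
    (q.1.1 : ℤ) ∣ n - q.1.2.1 ∧
      ∀ j ∈ q.1.2.2.1, (u ((n - j.2) / ((j.1 : ℕ) : ℤ)) = decide (j ∈ q.1.2.2.2.1))}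
  have hd : Dense (⋂ q, R q) := by
    refine dense_iInter_of_isOpen (fun q => isOpen_req _ _ _ _ _) (fun q => ?_)
    exact dense_req _ q.2.1 _ _ _ _ q.2.2
  obtain ⟨u, hu⟩ := hd.nonempty
  refine ⟨fun n => sg (u n), fun n => ?_, ?_⟩
  · cases h : u n <;> simp [sg, h]
  · intro M r J σ B hM hσ hJ
    have hq := Set.mem_iInter.1 hu ⟨(M, r, J, J.filter (fun j => σ j = 1), B), hM, hJ⟩
    obtain ⟨n, h1, h2, h3⟩ := hq
    refine ⟨n, h1, h2, fun j hj => ?_⟩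
    have h4 := h3 j hj
    simp only [Finset.mem_filter] at h4
    simp only [h4]
    rcases hσ j with h | h
    · simp [sg, h, hj]
    · have : ¬ ((-1 : ℝ) = 1) := by norm_num
      simp [sg, h, this]

end Pool.Agent.W_MP_52e7c8_nt
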