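import Pool.Agent.W_MP_52e7c8_nt.Density

/-!
# The scaling identity, lower bound
-/

namespace Pool.Agent.W_MP_52e7c8_nt

open Finset

variable {H : Set ℤ} {s : ℤ → ℝ}

/-- The arithmetic progression part with prescribed values on the classes mod `M`. -/
noncomputable def apPart (M : ℕ+) (c : ℤ → ℝ) : Ix →₀ ℝ :=
  ∑ i ∈ range (M : ℕ), Finsupp.single (M, (i : ℤ)) (c i)

theorem av_apPart (M : ℕ+) (c : ℤ → ℝ) (hc : ∀ n r : ℤ, ((M : ℕ) : ℤ) ∣ n - r → c n = c r) (m : ℤ) :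
    av (apPart M c) m = c m := by
  have hM : (0 : ℤ) < ((M : ℕ) : ℤ) := by exact_mod_cast M.pos
  unfold apPart
  rw [av_sum]
  simp only [av_single]
  have h0 : 0 ≤ m % ((M : ℕ) : ℤ) := Int.emod_nonneg _ hM.ne'
  have h1 : m % ((M : ℕ) : ℤ) < ((M : ℕ) : ℤ) := Int.emod_lt_of_pos _ hM
  obtain ⟨i, hi⟩ := Int.eq_ofNat_of_zero_le h0
  have hiM : i < (M : ℕ) := by rw [hi] at h1; exact_mod_cast h1
  have hdvd : ((M : ℕ) : ℤ) ∣ m - (i : ℤ) := by
    rw [show ((i : ℕ) : ℤ) = m % ((M : ℕ) : ℤ) from hi.symm]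
    exact Int.dvd_self_sub_emod
  rw [Finset.sum_eq_single_of_mem i (Finset.mem_range.2 hiM)]
  · rw [if_pos (show Hit (M, (i : ℤ)) m from hdvd)]
    exact (hc m i hdvd).symm
  · intro j hj hji
    rw [if_neg]
    intro hh
    have h2 : ((M : ℕ) : ℤ) ∣ m - (j : ℤ) := hh
    have h3 : ((M : ℕ) : ℤ) ∣ (i : ℤ) - (j : ℤ) := by
      have e : (i : ℤ) - j = (m - j) - (m - i) := by ring
      rw [e]; exact dvd_sub h2 hdvd
    have hj' := Finset.mem_range.1 hj
    have h4 : (i : ℤ) - (j : ℤ) = 0 := by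
      apply Int.eq_zero_of_abs_lt_dvd h3
      rw [abs_lt]
      constructor
      · have : (j : ℤ) < ((M : ℕ) : ℤ) := by exact_mod_cast hj'
        have : (0 : ℤ) ≤ (i : ℤ) := by positivity
        linarith
      · have : (i : ℤ) < ((M : ℕ) : ℤ) := by exact_mod_cast hiM
        have : (0 : ℤ) ≤ (j : ℤ) := by positivity
        linarith
    exact hji (by omega)

theorem lam_apPart (M : ℕ+) (c : ℤ → ℝ) :
    lam (apPart M c) = (∑ i ∈ range (M : ℕ), c i) / ((M : ℕ) : ℝ) := by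
  unfold apPart
  rw [lam_sum, Finset.sum_div]
  simp only [lam_single]

/-- The part of `b` with indices in the range of `phi k h`, pulled back. -/
noncomputable def good (k : ℕ+) (h : ℤ) (b : Ix →₀ ℝ) : Ix →₀ ℝ :=
  Finsupp.comapDomain (phi k h) b (phi_injective k h).injOn

/-- The remaining part of `b`. -/
noncomputable def bad (k : ℕ+) (h : ℤ) (b : Ix →₀ ℝ) : Ix →₀ ℝ := by
  classical exact b.filter fun j => j ∉ Set.range (phi k h)

theorem good_add_bad (k : ℕ+) (h : ℤ) (b : Ix →₀ ℝ) :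
    (good k h b).mapDomain (phi k h) + bad k h b = b := by
  classical
  ext j
  rw [Finsupp.add_apply]
  unfold bad good
  rw [Finsupp.filter_apply]
  by_cases hj : j ∈ Set.range (phi k h)
  · obtain ⟨i, rfl⟩ := hj
    rw [Finsupp.mapDomain_apply (phi_injective k h), Finsupp.comapDomain_apply, if_neg]
    · simp
    · simp
  · rw [Finsupp.mapDomain_of_notMem_range _ _ hj, if_pos hj]
    simp

theorem bad_bv_le (k : ℕ+) (h : ℤ) (b : Ix →₀ ℝ) (n : ℤ) : bv (bad k h b) n ≤ bv b n := by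
  classical
  unfold bv
  rw [Finsupp.sum, Finsupp.sum]
  unfold bad
  rw [Finsupp.support_filter]
  calc _ = ∑ j ∈ b.support.filter (fun j => j ∉ Set.range (phi k h)),
        (if Hit j n then |b j| else 0) := by
        refine Finset.sum_congr rfl fun j hj => ?_
        rw [Finsupp.filter_apply, if_pos (Finset.mem_filter.1 hj).2]
    _ ≤ _ := by
        refine Finset.sum_le_sum_of_subset_of_nonneg (Finset.filter_subset _ _) fun j _ _ => ?_
        split_ifs
        · exact abs_nonneg _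
        · exact le_rfl

theorem mem_support_bad {k : ℕ+} {h : ℤ} {b : Ix →₀ ℝ} {j : Ix} (hj : j ∈ (bad k h b).support) :
    j ∈ b.support ∧ j ∉ Set.range (phi k h) := by
  classical
  unfold bad at hj
  rw [Finsupp.support_filter, Finset.mem_filter] at hj
  exact hj

/-- If `j` is bad and hits `r ≡ h mod k`, then `r + j.1` is not `≡ h mod k`. -/
theorem not_dvd_of_bad {k : ℕ+} {h : ℤ} {j : Ix} (hj : j ∉ Set.range (phi k h)) {r : ℤ}
    (hr : Hit j r) (h1 : ((k : ℕ) : ℤ) ∣ r - h) : ¬ ((k : ℕ) : ℤ) ∣ r + ((j.1 : ℕ) : ℤ) - h := by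
  intro h2
  apply hj
  have h3 : ((k : ℕ) : ℤ) ∣ ((j.1 : ℕ) : ℤ) := by
    have e : ((j.1 : ℕ) : ℤ) = (r + ((j.1 : ℕ) : ℤ) - h) - (r - h) := by ring
    rw [e]; exact dvd_sub h2 h1
  have h4 : (k : ℕ) ∣ (j.1 : ℕ) := by exact_mod_cast h3
  obtain ⟨q, hq⟩ := h4
  have hq0 : 0 < q := by
    rcases Nat.eq_zero_or_pos q with h0 | h0
    · rw [h0, mul_zero] at hq
      exact absurd hq j.1.pos.ne'
    · exact h0
  have h5 : ((k : ℕ) : ℤ) ∣ j.2 - h := by
    have e : j.2 - h = (r - h) - (r - j.2) := by ring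
    rw [e]; exact dvd_sub h1 (h3.trans hr)
  obtain ⟨t, ht⟩ := h5
  refine ⟨(⟨q, hq0⟩, t), ?_⟩
  unfold phi
  refine Prod.ext ?_ ?_
  · apply PNat.coe_injective
    rw [PNat.mul_coe]
    exact hq.symm
  · simp only
    linarith

/-- At most half of the mass of a bad signed progression lies in the class `h mod k`. -/
theorem bad_sum_le {M : ℕ} (k : ℕ+) (h : ℤ) (hkM : (k : ℕ) ∣ M) {b : Ix →₀ ℝ}
    (hb : Period M b) (hbad : ∀ j ∈ b.support, j ∉ Set.range (phi k h)) :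
    ∑ r ∈ range M, (if ((k : ℕ) : ℤ) ∣ (r : ℤ) - h then bv b r else 0) ≤
      ∑ r ∈ range M, (if ((k : ℕ) : ℤ) ∣ (r : ℤ) - h then 0 else bv b r) := by
  have e1 : ∀ r : ℕ, (if ((k : ℕ) : ℤ) ∣ (r : ℤ) - h then bv b r else 0) =
      ∑ j ∈ b.support, (if ((k : ℕ) : ℤ) ∣ (r : ℤ) - h then
        (if Hit j r then |b j| else 0) else 0) := by
    intro r
    unfold bv Finsupp.sum
    split_ifs
    · rfl
    · simp
  have e2 : ∀ r : ℕ, (if ((k : ℕ) : ℤ) ∣ (r : ℤ) - h then 0 else bv b r) =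
      ∑ j ∈ b.support, (if ((k : ℕ) : ℤ) ∣ (r : ℤ) - h then 0 else
        (if Hit j r then |b j| else 0)) := by
    intro r
    unfold bv Finsupp.sum
    split_ifs
    · simp
    · rfl
  simp only [e1, e2]
  rw [Finset.sum_comm, Finset.sum_comm (s := range M)]
  refine Finset.sum_le_sum fun j hj => ?_
  have hkM' : ((k : ℕ) : ℤ) ∣ (M : ℤ) := by exact_mod_cast hkM
  have hjM' : ((j.1 : ℕ) : ℤ) ∣ (M : ℤ) := by exact_mod_cast hb j hj
  rw [← sum_range_shift M (fun n => if ((k : ℕ) : ℤ) ∣ n - h then 0 else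
    (if Hit j n then |b j| else 0)) (fun n => by
      have h1 : ((k : ℕ) : ℤ) ∣ n + (M : ℤ) - h ↔ ((k : ℕ) : ℤ) ∣ n - h := by
        have e : n + (M : ℤ) - h = (n - h) + M := by ring
        rw [e]; exact dvd_add_left hkM'
      have h2 : Hit j (n + M) ↔ Hit j n := by
        apply hit_iff_of_dvd (hb j hj)
        simp
      simp only [h1, h2]) ((j.1 : ℕ) : ℤ)]
  refine Finset.sum_le_sum fun r _ => ?_
  have h3 : Hit j ((r : ℤ) + ((j.1 : ℕ) : ℤ)) ↔ Hit j r := by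
    unfold Hit
    have e : (r : ℤ) + ((j.1 : ℕ) : ℤ) - j.2 = ((r : ℤ) - j.2) + ((j.1 : ℕ) : ℤ) := by ring
    rw [e]; exact dvd_add_left dvd_rfl
  by_cases h4 : ((k : ℕ) : ℤ) ∣ (r : ℤ) - h
  · rw [if_pos h4]
    by_cases h5 : Hit j r
    · rw [if_pos h5, if_neg (not_dvd_of_bad (hbad j hj) h5 h4), if_pos (h3.2 h5)]
    · rw [if_neg h5]
      split_ifs
      · exact le_rfl
      · exact abs_nonneg _
      · exact le_rfl
  · rw [if_neg h4]
    split_ifs
    · exact le_rfl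
    · exact abs_nonneg _
    · exact le_rfl

/-- The scaling identity, lower bound. -/
theorem exists_pull (hH : GoodSet H) (hs : ∀ n, s n = 1 ∨ s n = -1) (hg : Generic s)
    (k : ℕ+) {h : ℤ} (hh : 1 ≤ h) {Z : Set ℤ} {a b : Ix →₀ ℝ}
    (hc : Cov H s ((fun m => ((k : ℕ) : ℤ) * m + h) '' Z) a b) :
    ∃ a' b', Cov H s Z a' b' ∧ lam a' ≤ ((k : ℕ) : ℝ) * lam a := by
  obtain ⟨B, hB⟩ := hc
  obtain ⟨M₀, hM₀, ha₀, hb₀⟩ := exists_period a b
  let M' : ℕ+ := ⟨M₀, hM₀⟩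
  -- `M = k * M'` is a period as well
  have ha : Period ((k : ℕ) * M₀) a := ha₀.mul _
  have hb : Period ((k : ℕ) * M₀) b := hb₀.mul _
  have hbb : Period ((k : ℕ) * M₀) (bad k h b) := fun j hj => hb j (mem_support_bad hj).1
  have hMpos : 0 < (k : ℕ) * M₀ := Nat.mul_pos k.pos hM₀
  -- class bound
  have hcl : ∀ r : ℤ, bv b r ≤ av a r := by
    intro r
    have := class_lower hH hg hMpos ha hb 0 B (fun n hn hn' => (hB n hn hn').1) r
    linarith
  -- values on classes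
  let c : ℤ → ℝ := fun m => av a (((k : ℕ) : ℤ) * m + h) + bv (bad k h b) (((k : ℕ) : ℤ) * m + h)
  have hcper : ∀ n r : ℤ, ((M' : ℕ) : ℤ) ∣ n - r → c n = c r := by
    intro n r hnr
    have h1 : ((((k : ℕ) * M₀ : ℕ)) : ℤ) ∣
        (((k : ℕ) : ℤ) * n + h) - (((k : ℕ) : ℤ) * r + h) := by
      have e : (((k : ℕ) : ℤ) * n + h) - (((k : ℕ) : ℤ) * r + h) = ((k : ℕ) : ℤ) * (n - r) := by ring
      rw [e, Nat.cast_mul]
      exact mul_dvd_mul_left _ hnr
    simp only [c]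
    rw [av_congr ha h1, bv_congr hbb h1]
  refine ⟨apPart M' c, good k h b, ?_, ?_⟩
  · -- covering
    have hk : (1 : ℤ) ≤ ((k : ℕ) : ℤ) := by exact_mod_cast k.pos
    refine ⟨|B| + h, fun m hm hm' => ?_⟩
    have hn : ((k : ℕ) : ℤ) * m + h ∈ H := hH.aff _ _ hk hh m hm
    have hnB : B < |((k : ℕ) : ℤ) * m + h| := by
      have h1 : |((k : ℕ) : ℤ) * m| ≤ |((k : ℕ) : ℤ) * m + h| + |h| := by
        have := abs_sub (((k : ℕ) : ℤ) * m + h) h
        simpa using this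
      rw [abs_mul, abs_of_nonneg (by linarith : (0 : ℤ) ≤ ((k : ℕ) : ℤ)),
        abs_of_nonneg (by linarith : (0 : ℤ) ≤ h)] at h1
      have h2 : |m| ≤ ((k : ℕ) : ℤ) * |m| := le_mul_of_one_le_left (abs_nonneg _) hk
      have h3 := le_abs_self B
      linarith
    obtain ⟨h1, h2⟩ := hB _ hn hnB
    have key : av a (((k : ℕ) : ℤ) * m + h) + tv s b (((k : ℕ) : ℤ) * m + h) ≤
        av (apPart M' c) m + tv s (good k h b) m := by
      rw [av_apPart M' c hcper]
      have e : tv s b (((k : ℕ) : ℤ) * m + h) = tv s (good k h b) m +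
          tv s (bad k h b) (((k : ℕ) : ℤ) * m + h) := by
        conv_lhs => rw [← good_add_bad k h b]
        rw [tv_add, tv_map]
      rw [e]
      have h3 := (le_abs_self _).trans (abs_tv_le hs (bad k h b) (((k : ℕ) : ℤ) * m + h))
      simp only [c]
      linarith
    refine ⟨h1.trans key, fun hmZ => (h2 ⟨m, hmZ, rfl⟩).trans key⟩
  · -- masses
    rw [lam_apPart]
    have hk0 : (0 : ℝ) < ((k : ℕ) : ℝ) := by exact_mod_cast k.pos
    have hM0 : (0 : ℝ) < (M₀ : ℝ) := by exact_mod_cast hM₀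
    have hMM : ((M' : ℕ) : ℝ) = (M₀ : ℝ) := rfl
    rw [hMM, div_le_iff₀ hM0]
    have h1 : ((k : ℕ) : ℝ) * lam a * M₀ = ∑ r ∈ range ((k : ℕ) * M₀), av a r := by
      rw [sum_av ha]; push_cast; ring
    rw [h1]
    -- class sums
    have hper1 : ∀ n, av a (n + ((k : ℕ) * M₀ : ℕ)) = av a n := fun n => av_congr ha (by simp)
    have hper2 : ∀ n, bv (bad k h b) (n + ((k : ℕ) * M₀ : ℕ)) = bv (bad k h b) n :=
      fun n => bv_congr hbb (by simp)
    have h2 := sum_class (k : ℕ) M₀ k.pos h (av a) hper1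
    have h3 := sum_class (k : ℕ) M₀ k.pos h (bv (bad k h b)) hper2
    have h4 := bad_sum_le k h (dvd_mul_right (k : ℕ) M₀) hbb (fun j hj => (mem_support_bad hj).2)
    have h5 : ∑ i ∈ range (M' : ℕ), c i =
        ∑ s ∈ range M₀, av a (((k : ℕ) : ℤ) * s + h) +
        ∑ s ∈ range M₀, bv (bad k h b) (((k : ℕ) : ℤ) * s + h) := by
      rw [← Finset.sum_add_distrib]
      rfl
    rw [h5, ← h2, ← h3]
    refine (add_le_add_right h4 _).trans ?_
    rw [← Finset.sum_add_distrib]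
    refine Finset.sum_le_sum fun r _ => ?_
    split_ifs
    · simp
    · rw [zero_add]
      exact (bad_bv_le k h b r).trans (hcl r)

theorem mu_aff (hH : GoodSet H) (hs : ∀ n, s n = 1 ∨ s n = -1) (hg : Generic s)
    (k : ℕ+) {h : ℤ} (hh : 1 ≤ h) (Z : Set ℤ) :
    mu H s ((fun m => ((k : ℕ) : ℤ) * m + h) '' Z) = mu H s Z / ((k : ℕ) : ℝ) := by
  have hk0 : (0 : ℝ) < ((k : ℕ) : ℝ) := by exact_mod_cast k.pos
  rw [eq_div_iff hk0.ne']
  apply le_antisymm
  · refine le_csInf (masses_nonempty Z) ?_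
    rintro x ⟨a, b, hc, rfl⟩
    have := mu_le hH hg (cov_map hH k hh hc)
    rw [lam_map] at this
    exact (le_div_iff₀ hk0).1 this
  · rw [mul_comm, ← div_le_iff₀' hk0]
    refine le_csInf (masses_nonempty _) ?_
    rintro x ⟨a, b, hc, rfl⟩
    obtain ⟨a', b', hc', hl⟩ := exists_pull hH hs hg k hh hc
    rw [div_le_iff₀' hk0]
    exact (mu_le hH hg hc').trans hl

end Pool.Agent.W_MP_52e7c8_nt
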